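import Pool.Agent.Helper76.PC.Stmts

/-!
MP_c33217_co, module EDELE: deletion of an edge of an embedded configuration.
-/

namespace Pool.Agent.Helper76.PC

/-- the new record -/
def edele_upd (x y : ℕ) (r : Vx) : Vx :=
  bif Nat.beq r.id x then ⟨r.id, r.sd, r.lo - 1, r.hi - 1, remv y r.nb⟩
  else bif Nat.beq r.id y then ⟨r.id, r.sd, r.lo - 1, r.hi - 1, remv x r.nb⟩ else r

theorem edele_upd1 (x y : ℕ) (r : Vx) (h : r.id = x) :
    edele_upd x y r = ⟨r.id, r.sd, r.lo - 1, r.hi - 1, remv y r.nb⟩ := by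
  subst h; simp [edele_upd, Nat.beq_refl]

theorem edele_beq {x y : ℕ} (h : x ≠ y) : Nat.beq x y = false := by
  cases hb : Nat.beq x y with
  | true => exact absurd (Nat.eq_of_beq_eq_true hb) h
  | false => rfl

theorem edele_upd2 (x y : ℕ) (r : Vx) (h : r.id = y) (hxy : y ≠ x) :
    edele_upd x y r = ⟨r.id, r.sd, r.lo - 1, r.hi - 1, remv x r.nb⟩ := by
  subst h; simp [edele_upd, edele_beq hxy, Nat.beq_refl]

theorem edele_upd3 (x y : ℕ) (r : Vx) (h1 : r.id ≠ x) (h2 : r.id ≠ y) :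
    edele_upd x y r = r := by
  simp [edele_upd, edele_beq h1, edele_beq h2]

theorem edele_map (x y : ℕ) (K : Cfg) : delEC x y K = K.map (edele_upd x y) := by
  induction K with
  | nil => rfl
  | cons r K ih => simp only [delEC, List.map_cons, ih, edele_upd]

theorem edele_id (x y : ℕ) (r : Vx) : (edele_upd x y r).id = r.id := by
  unfold edele_upd
  cases Nat.beq r.id x <;> cases Nat.beq r.id y <;> rfl

theorem edele_sd (x y : ℕ) (r : Vx) : (edele_upd x y r).sd = r.sd := by
  unfold edele_upd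
  cases Nat.beq r.id x <;> cases Nat.beq r.id y <;> rfl

theorem st_EDELE (h1 : ST_LST) : ST_EDELE := by
  obtain ⟨-, -, hremv, hrnd, -⟩ := h1
  intro G φ f K E r hr y hy
  obtain ⟨s, hs, hsy⟩ := E.cl r hr y hy
  have hab : φ y ∈ G.N (φ r.id) := E.adj r hr y hy
  have hba : φ r.id ∈ G.N (φ y) := G.symm _ _ hab
  have hne : φ y ≠ φ r.id := by
    intro he
    have := G.bip _ _ hab
    rw [he] at this
    exact this rfl
  have hyx : y ≠ r.id := fun he => hne (by rw [← he])
  have hsub : ∀ q : Vx, ∀ z ∈ (edele_upd r.id y q).nb, z ∈ q.nb := by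
    intro q z hz
    by_cases hq : q.id = r.id
    · rw [edele_upd1 _ _ _ hq] at hz
      exact ((hremv _ _ _).1 hz).1
    · by_cases hq2 : q.id = y
      · rw [edele_upd2 _ _ _ hq2 hyx] at hz
        exact ((hremv _ _ _).1 hz).1
      · rw [edele_upd3 _ _ _ hq hq2] at hz
        exact hz
  have ha : (delE G (φ r.id) (φ y)).N (φ r.id) = (G.N (φ r.id)).erase (φ y) := by
    simp [delE]
  have hb : (delE G (φ r.id) (φ y)).N (φ y) = (G.N (φ y)).erase (φ r.id) := by
    simp [delE, hne]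
  have hc : ∀ q ∈ K, q.id ≠ r.id → q.id ≠ y →
      (delE G (φ r.id) (φ y)).N (φ q.id) = G.N (φ q.id) := by
    intro q hq hq1 hq2
    have e1 : φ q.id ≠ φ r.id := fun he => hq1 (E.inj q hq r hr he)
    have e2 : φ q.id ≠ φ y := fun he => hq2 (by
      rw [← hsy] at he
      rw [E.inj q hq s hs he, hsy])
    simp [delE, e1, e2]
  have hK : ∀ q' ∈ delEC r.id y K, ∃ q ∈ K, edele_upd r.id y q = q' := by
    intro q' hq'
    rw [edele_map, List.mem_map] at hq'
    exact hq'
  have ca : ((G.N (φ r.id)).erase (φ y)).card = (G.N (φ r.id)).card - 1 :=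
    Finset.card_erase_of_mem hab
  have cb : ((G.N (φ y)).erase (φ r.id)).card = (G.N (φ y)).card - 1 :=
    Finset.card_erase_of_mem hba
  refine ⟨?_, ?_, ?_, ?_, ?_, ?_, ?_, ?_⟩
  · intro q' hq'
    obtain ⟨q, hq, rfl⟩ := hK q' hq'
    rw [edele_id]
    exact E.memV q hq
  · intro q' hq'
    obtain ⟨q, hq, rfl⟩ := hK q' hq'
    rw [edele_id, edele_sd]
    exact E.sd q hq
  · intro q' hq'
    obtain ⟨q, hq, rfl⟩ := hK q' hq'
    have hl := E.lo q hq
    by_cases hq1 : q.id = r.id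
    · rw [edele_upd1 _ _ _ hq1]
      show q.lo - 1 ≤ ((delE G (φ r.id) (φ y)).N (φ q.id)).card
      rw [hq1] at hl ⊢
      rw [ha, ca]
      omega
    · by_cases hq2 : q.id = y
      · rw [edele_upd2 _ _ _ hq2 hyx]
        show q.lo - 1 ≤ ((delE G (φ r.id) (φ y)).N (φ q.id)).card
        rw [hq2] at hl ⊢
        rw [hb, cb]
        omega
      · rw [edele_upd3 _ _ _ hq1 hq2, hc q hq hq1 hq2]
        exact hl
  · intro q' hq'
    obtain ⟨q, hq, rfl⟩ := hK q' hq'
    have hl := E.hi q hq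
    by_cases hq1 : q.id = r.id
    · rw [edele_upd1 _ _ _ hq1]
      show ((delE G (φ r.id) (φ y)).N (φ q.id)).card ≤ q.hi - 1
      rw [hq1] at hl ⊢
      rw [ha, ca]
      omega
    · by_cases hq2 : q.id = y
      · rw [edele_upd2 _ _ _ hq2 hyx]
        show ((delE G (φ r.id) (φ y)).N (φ q.id)).card ≤ q.hi - 1
        rw [hq2] at hl ⊢
        rw [hb, cb]
        omega
      · rw [edele_upd3 _ _ _ hq1 hq2, hc q hq hq1 hq2]
        exact hl
  · intro q' hq'
    obtain ⟨q, hq, rfl⟩ := hK q' hq'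
    have hl := E.nd q hq
    by_cases hq1 : q.id = r.id
    · rw [edele_upd1 _ _ _ hq1]
      exact hrnd _ _ hl
    · by_cases hq2 : q.id = y
      · rw [edele_upd2 _ _ _ hq2 hyx]
        exact hrnd _ _ hl
      · rw [edele_upd3 _ _ _ hq1 hq2]
        exact hl
  · intro q' hq' z hz
    obtain ⟨q, hq, rfl⟩ := hK q' hq'
    have hz0 := hsub q z hz
    have hadj := E.adj q hq z hz0
    obtain ⟨t, ht, htz⟩ := E.cl q hq z hz0
    rw [edele_id]
    by_cases hq1 : q.id = r.id
    · rw [edele_upd1 _ _ _ hq1] at hz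
      have hzy : z ≠ y := ((hremv _ _ _).1 hz).2
      have hφ : φ z ≠ φ y := by
        intro he
        rw [← htz, ← hsy] at he
        exact hzy (by rw [← htz, ← hsy]; exact E.inj t ht s hs he)
      rw [hq1] at hadj ⊢
      rw [ha]
      exact Finset.mem_erase.2 ⟨hφ, hadj⟩
    · by_cases hq2 : q.id = y
      · rw [edele_upd2 _ _ _ hq2 hyx] at hz
        have hzx : z ≠ r.id := ((hremv _ _ _).1 hz).2
        have hφ : φ z ≠ φ r.id := by
          intro he
          rw [← htz] at he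
          exact hzx (by rw [← htz]; exact E.inj t ht r hr he)
        rw [hq2] at hadj ⊢
        rw [hb]
        exact Finset.mem_erase.2 ⟨hφ, hadj⟩
      · rw [hc q hq hq1 hq2]
        exact hadj
  · intro q' hq' z hz
    obtain ⟨q, hq, rfl⟩ := hK q' hq'
    obtain ⟨t, ht, htz⟩ := E.cl q hq z (hsub q z hz)
    refine ⟨edele_upd r.id y t, ?_, ?_⟩
    · rw [edele_map]; exact List.mem_map_of_mem ht
    · rw [edele_id]; exact htz
  · intro q' hq' t' ht' he
    obtain ⟨q, hq, rfl⟩ := hK q' hq'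
    obtain ⟨t, ht, rfl⟩ := hK t' ht'
    rw [edele_id, edele_id] at he ⊢
    exact E.inj q hq t ht he

end Pool.Agent.Helper76.PC
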