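import Pool.Agent.Helper76.PC.Stmts

/-!
MP_c33217_co, module LST: list functions of the checker.
-/

namespace Pool.Agent.Helper76.PC

theorem lst_memB (x : ℕ) (l : List ℕ) : memB x l = true ↔ x ∈ l := by
  induction l with
  | nil => simp [memB]
  | cons y l ih =>
    simp only [memB, Bool.or_eq_true, ih, List.mem_cons]
    constructor
    · rintro (h | h)
      · exact Or.inl (Nat.eq_of_beq_eq_true h)
      · exact Or.inr h
    · rintro (h | h)
      · subst h; exact Or.inl (Nat.beq_refl x)
      · exact Or.inr h

theorem lst_lenN (l : List ℕ) : lenN l = l.length := by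
  induction l with
  | nil => rfl
  | cons y l ih => simp [lenN, ih]

theorem lst_beq_ne {x y : ℕ} (h : Nat.beq x y = false) : x ≠ y := by
  intro he; subst he; rw [Nat.beq_refl] at h; exact Bool.noConfusion h

theorem lst_remv (x y : ℕ) (l : List ℕ) : y ∈ remv x l ↔ y ∈ l ∧ y ≠ x := by
  induction l with
  | nil => simp [remv]
  | cons z l ih =>
    cases hb : Nat.beq x z with
    | true =>
      have hxz := Nat.eq_of_beq_eq_true hb
      simp only [remv, hb, cond_true, ih, List.mem_cons]
      constructor
      · rintro ⟨h1, h2⟩; exact ⟨Or.inr h1, h2⟩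
      · rintro ⟨h1 | h1, h2⟩
        · exact absurd (h1.trans hxz.symm) h2
        · exact ⟨h1, h2⟩
    | false =>
      have hxz := lst_beq_ne hb
      simp only [remv, hb, cond_false, ih, List.mem_cons]
      constructor
      · rintro (h | ⟨h1, h2⟩)
        · exact ⟨Or.inl h, fun he => hxz (he.symm.trans h)⟩
        · exact ⟨Or.inr h1, h2⟩
      · rintro ⟨h1 | h1, h2⟩
        · exact Or.inl h1
        · exact Or.inr ⟨h1, h2⟩

theorem lst_remv_nodup (x : ℕ) (l : List ℕ) (hl : l.Nodup) : (remv x l).Nodup := by
  induction l with
  | nil => simp [remv]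
  | cons z l ih =>
    rw [List.nodup_cons] at hl
    cases hb : Nat.beq x z with
    | true =>
      simp only [remv, hb, cond_true]
      exact ih hl.2
    | false =>
      simp only [remv, hb, cond_false, List.nodup_cons]
      refine ⟨fun h => ?_, ih hl.2⟩
      exact hl.1 ((lst_remv x z l).1 h).1

theorem lst_allB (f : ℕ → Bool) (l : List ℕ) : allB f l = true ↔ ∀ y ∈ l, f y = true := by
  induction l with
  | nil => simp [allB]
  | cons z l ih => simp only [allB, Bool.and_eq_true, ih, List.forall_mem_cons]

theorem lst_anyB (f : ℕ → Bool) (l : List ℕ) : anyB f l = true ↔ ∃ y ∈ l, f y = true := by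
  induction l with
  | nil => simp [anyB]
  | cons z l ih => simp only [anyB, Bool.or_eq_true, ih, List.exists_mem_cons_iff]

theorem lst_getV_some (x : ℕ) (K : Cfg) (r : Vx) (h : getV x K = some r) : r ∈ K ∧ r.id = x := by
  induction K with
  | nil => simp [getV] at h
  | cons q K ih =>
    cases hb : Nat.beq x q.id with
    | true =>
      simp only [getV, hb, cond_true, Option.some.injEq] at h
      subst h
      exact ⟨List.mem_cons_self, (Nat.eq_of_beq_eq_true hb).symm⟩
    | false =>
      simp only [getV, hb, cond_false] at h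
      exact ⟨List.mem_cons_of_mem _ (ih h).1, (ih h).2⟩

theorem lst_getV_none (x : ℕ) (K : Cfg) (h : getV x K = none) : ∀ r ∈ K, r.id ≠ x := by
  induction K with
  | nil => simp
  | cons q K ih =>
    cases hb : Nat.beq x q.id with
    | true => simp only [getV, hb, cond_true, reduceCtorEq] at h
    | false =>
      simp only [getV, hb, cond_false] at h
      intro r hr
      rcases List.mem_cons.1 hr with h1 | h1
      · subst h1; exact (lst_beq_ne hb).symm
      · exact ih h r h1

theorem lst_nodupB (l : List ℕ) : nodupB l = true ↔ l.Nodup := by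
  induction l with
  | nil => simp [nodupB]
  | cons z l ih =>
    simp only [nodupB, Bool.and_eq_true, ih, List.nodup_cons, Bool.not_eq_true', ← lst_memB z l]
    constructor
    · rintro ⟨h1, h2⟩; exact ⟨by rw [h1]; exact Bool.false_ne_true, h2⟩
    · rintro ⟨h1, h2⟩; exact ⟨by simpa using h1, h2⟩

theorem lst_mapL (f : ℕ → ℕ) (l : List ℕ) : mapL f l = l.map f := by
  induction l with
  | nil => rfl
  | cons z l ih => simp [mapL, ih]

theorem lst_ids (K : Cfg) : ids K = K.map Vx.id := by
  induction K with
  | nil => rfl
  | cons z l ih => simp [ids, ih]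

theorem lst_rangeL (a n x : ℕ) : x ∈ rangeL a n ↔ a ≤ x ∧ x < a + n := by
  induction n generalizing a with
  | zero => simp only [rangeL, List.not_mem_nil, false_iff]; omega
  | succ n ih =>
    simp only [rangeL, List.mem_cons, ih]
    omega

theorem st_LST : ST_LST :=
  ⟨lst_memB, lst_lenN, fun x y l => lst_remv x y l, lst_remv_nodup, lst_allB, lst_anyB,
    lst_getV_some, lst_getV_none, lst_nodupB, lst_mapL, lst_ids, lst_rangeL⟩

end Pool.Agent.Helper76.PC
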